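import Mathlib

set_option autoImplicit false

open MeasureTheory ProbabilityTheory

namespace Pool.Agent.KS6_60.FD

/-- The group of periods of a configuration `x` on `ℤ^d`. -/
def stab {d : ℕ} {A : Type} (x : (Fin d → ℤ) → A) : AddSubgroup (Fin d → ℤ) where
  carrier := {v | ∀ u, x (u + v) = x u}
  zero_mem' := by intro u; simp
  add_mem' := by
    intro a b ha hb u
    rw [← add_assoc, hb, ha]
  neg_mem' := by
    intro a ha u
    have := ha (u + -a)
    simpa using this.symm

/-- A configuration is periodic if its group of periods has finite index in `ℤ^d`. -/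
def IsPeriodic {d : ℕ} {A : Type} (x : (Fin d → ℤ) → A) : Prop := (stab x).FiniteIndex

/-- Shift-invariance of a random field `X` on `ℤ^d` (in law). -/
def ShiftInvariant {d : ℕ} {Ω A : Type} [MeasurableSpace Ω] [MeasurableSpace A]
    (P : Measure Ω) (X : (Fin d → ℤ) → Ω → A) : Prop :=
  ∀ w : Fin d → ℤ, P.map (fun ω v => X (v + w) ω) = P.map (fun ω v => X v ω)

/-- The restrictions of `X` to any two sets of sites at sup-distance at least `k` are
independent. -/
def DependentRange {d : ℕ} {Ω A : Type} [MeasurableSpace Ω] [MeasurableSpace A]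
    (k : ℕ) (P : Measure Ω) (X : (Fin d → ℤ) → Ω → A) : Prop :=
  ∀ S T : Set (Fin d → ℤ), (∀ a ∈ S, ∀ b ∈ T, (k : ℝ) ≤ dist a b) →
    IndepFun (fun ω (v : S) => X v ω) (fun ω (v : T) => X v ω) P

/-- The support of a random field: the configurations all of whose finite patterns have
positive probability. -/
def support {d : ℕ} {Ω A : Type} [MeasurableSpace Ω]
    (P : Measure Ω) (X : (Fin d → ℤ) → Ω → A) : Set ((Fin d → ℤ) → A) :=
  {x | ∀ B : Finset (Fin d → ℤ), 0 < P {ω | ∀ v ∈ B, X v ω = x v}}

end Pool.Agent.KS6_60.FD
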