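import Pool.Agent.KS6_60.FD.Defs

set_option autoImplicit false

open MeasureTheory ProbabilityTheory
open scoped ENNReal

namespace Pool.Agent.KS6_60.FD

/-- representative in `[-1/2, 1/2)`. -/
noncomputable def r (y : UnitAddCircle) : ℝ := (AddCircle.measurableEquivIco (1 : ℝ) (-1/2) y : ℝ)

lemma measurable_r : Measurable r :=
  measurable_subtype_coe.comp (AddCircle.measurableEquivIco (1 : ℝ) (-1/2)).measurable

lemma r_coe (y : UnitAddCircle) : ((r y : ℝ) : UnitAddCircle) = y :=
  AddCircle.coe_equivIco (p := (1 : ℝ)) (a := -1/2) (y := y)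

lemma r_mem (y : UnitAddCircle) : -1/2 ≤ r y ∧ r y < 1/2 := by
  have h := (AddCircle.measurableEquivIco (1 : ℝ) (-1/2) y).2
  rw [Set.mem_Ico] at h
  unfold r
  refine ⟨h.1, ?_⟩
  have := h.2
  linarith

variable {d : ℕ}

/-- basis vectors of `ℤ^d`. -/
def e (i : Fin d) : Fin d → ℤ := Pi.single i 1

/-- the pairs of coordinate directions -/
abbrev Pr (d : ℕ) := {p : Fin d × Fin d // p.1 < p.2}

/-- the vector potential -/
noncomputable def pot (θ : Fin d → Fin d → ℝ) (i : Fin d) (v : Fin d → ℤ) : ℝ :=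
  ∑ j, if i < j then θ i j * (v j : ℝ) else 0

lemma pot_add (θ : Fin d → Fin d → ℝ) (i : Fin d) (v w : Fin d → ℤ) :
    pot θ i (v + w) = pot θ i v + pot θ i w := by
  unfold pot
  rw [← Finset.sum_add_distrib]
  refine Finset.sum_congr rfl fun j _ => ?_
  split_ifs
  · rw [Pi.add_apply]
    push_cast
    ring
  · simp

lemma pot_e (θ : Fin d → Fin d → ℝ) (i j : Fin d) :
    pot θ i (e j) = if i < j then θ i j else 0 := by
  unfold pot e
  rw [Finset.sum_eq_single j]
  · simp
  · intro k _ hk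
    rw [Pi.single_eq_of_ne hk]
    simp
  · simp

/-- the current through the edge `(v, v + e i)` -/
noncomputable def J (θ : Fin d → Fin d → ℝ) (i : Fin d) (v : Fin d → ℤ)
    (w : (Fin d → ℤ) → UnitAddCircle) : ℝ :=
  r (w (v + e i) - w v - ((pot θ i v : ℝ) : UnitAddCircle))

/-- the curl at the plaquette `v, v + e i, v + e i + e j, v + e j` -/
noncomputable def curl (θ : Fin d → Fin d → ℝ) (i j : Fin d) (v : Fin d → ℤ)
    (w : (Fin d → ℤ) → UnitAddCircle) : ℝ :=
  J θ i v w + J θ j (v + e i) w - J θ i (v + e j) w - J θ j v w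

/-- the integer field -/
noncomputable def Z (θ : Fin d → Fin d → ℝ) (i j : Fin d) (v : Fin d → ℤ)
    (w : (Fin d → ℤ) → UnitAddCircle) : ℤ :=
  ⌊curl θ i j v w - θ i j + 1/2⌋

lemma curl_coe (θ : Fin d → Fin d → ℝ) {i j : Fin d} (hij : i < j) (v : Fin d → ℤ)
    (w : (Fin d → ℤ) → UnitAddCircle) :
    ((curl θ i j v w : ℝ) : UnitAddCircle) = ((θ i j : ℝ) : UnitAddCircle) := by
  unfold curl J
  have h2 : v + e j + e i = v + e i + e j := by abel
  have h3 : pot θ i (v + e j) = pot θ i v + θ i j := by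
    rw [pot_add, pot_e, if_pos hij]
  have h4 : pot θ j (v + e i) = pot θ j v := by
    rw [pot_add, pot_e, if_neg (not_lt.2 hij.le), add_zero]
  rw [AddCircle.coe_sub, AddCircle.coe_sub, AddCircle.coe_add, r_coe, r_coe, r_coe, r_coe, h2, h3,
    h4, AddCircle.coe_add]
  abel

lemma Z_eq (θ : Fin d → Fin d → ℝ) {i j : Fin d} (hij : i < j) (v : Fin d → ℤ)
    (w : (Fin d → ℤ) → UnitAddCircle) : (Z θ i j v w : ℝ) = curl θ i j v w - θ i j := by
  have h : ((curl θ i j v w - θ i j : ℝ) : UnitAddCircle) = 0 := by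
    rw [AddCircle.coe_sub, curl_coe θ hij, sub_self]
  rw [AddCircle.coe_eq_zero_iff] at h
  obtain ⟨m, hm⟩ := h
  simp only [zsmul_eq_mul, mul_one] at hm
  have : Z θ i j v w = m := by
    unfold Z
    rw [← hm, Int.floor_eq_iff]
    constructor <;> linarith
  rw [this, hm]

lemma Z_range (θ : Fin d → Fin d → ℝ) {i j : Fin d} (hij : i < j) (h0 : 0 < θ i j)
    (h1 : θ i j < 1) (v : Fin d → ℤ) (w : (Fin d → ℤ) → UnitAddCircle) :
    -2 ≤ Z θ i j v w ∧ Z θ i j v w ≤ 1 := by
  have h := Z_eq θ hij v w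
  have hc : -2 < curl θ i j v w ∧ curl θ i j v w < 2 := by
    unfold curl J
    have a1 := r_mem (w (v + e i) - w v - ((pot θ i v : ℝ) : UnitAddCircle))
    have a2 := r_mem (w (v + e i + e j) - w (v + e i) - ((pot θ j (v + e i) : ℝ) : UnitAddCircle))
    have a3 := r_mem (w (v + e j + e i) - w (v + e j) - ((pot θ i (v + e j) : ℝ) : UnitAddCircle))
    have a4 := r_mem (w (v + e j) - w v - ((pot θ j v : ℝ) : UnitAddCircle))
    constructor <;> linarith [a1.1, a1.2, a2.1, a2.2, a3.1, a3.2, a4.1, a4.2]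
  constructor
  · have : (-3 : ℝ) < Z θ i j v w := by rw [h]; linarith [hc.1]
    have : (-3 : ℤ) < Z θ i j v w := by exact_mod_cast this
    omega
  · have : (Z θ i j v w : ℝ) < 2 := by rw [h]; linarith [hc.2]
    have : Z θ i j v w < 2 := by exact_mod_cast this
    omega

/-- the field; its value at a site is a family of letters indexed by the pairs of directions -/
noncomputable def X (θ : Fin d → Fin d → ℝ) (v : Fin d → ℤ)
    (w : (Fin d → ℤ) → UnitAddCircle) (p : Pr d) : Fin 4 :=
  Fin.ofNat 4 (Z θ p.1.1 p.1.2 v w + 2).toNat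

lemma X_val (θ : Fin d → Fin d → ℝ) (h0 : ∀ i j, 0 < θ i j) (h1 : ∀ i j, θ i j < 1)
    (v : Fin d → ℤ) (w : (Fin d → ℤ) → UnitAddCircle) (p : Pr d) :
    ((X θ v w p : ℕ) : ℤ) = Z θ p.1.1 p.1.2 v w + 2 := by
  have h := Z_range θ p.2 (h0 _ _) (h1 _ _) v w
  unfold X
  simp only [Fin.ofNat_eq_cast, Fin.val_natCast]
  omega

/-- the unit cube at `v` -/
def cube (v : Fin d → ℤ) : Set (Fin d → ℤ) := {u | ∀ i, 0 ≤ u i - v i ∧ u i - v i ≤ 1}

lemma mem_cube_self (v : Fin d → ℤ) : v ∈ cube v := by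
  intro i
  simp

lemma mem_cube_one (v : Fin d → ℤ) (i : Fin d) : v + e i ∈ cube v := by
  intro k
  rw [Pi.add_apply, add_sub_cancel_left]
  unfold e
  by_cases hk : k = i
  · subst hk; simp
  · rw [Pi.single_eq_of_ne hk]; simp

lemma mem_cube_two (v : Fin d → ℤ) {i j : Fin d} (hij : i ≠ j) : v + e i + e j ∈ cube v := by
  intro k
  rw [Pi.add_apply, Pi.add_apply, add_assoc, add_sub_cancel_left]
  unfold e
  by_cases hk : k = i
  · subst hk
    rw [Pi.single_eq_same, Pi.single_eq_of_ne hij]; simp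
  · rw [Pi.single_eq_of_ne hk, zero_add]
    by_cases hk' : k = j
    · subst hk'; simp
    · rw [Pi.single_eq_of_ne hk']; simp

/-- the field at `v` is a measurable function of the values at the sites of the cube -/
lemma measurable_X_of {Ω' : Type} [MeasurableSpace Ω'] (θ : Fin d → Fin d → ℝ) (v : Fin d → ℤ)
    (W : (Fin d → ℤ) → Ω' → UnitAddCircle) (hW : ∀ u ∈ cube v, Measurable (W u)) :
    Measurable (fun ω => X θ v (fun u => W u ω)) := by
  refine measurable_pi_iff.2 fun p => ?_
  have hp : p.1.1 ≠ p.1.2 := p.2.ne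
  have m0 : Measurable (W v) := hW _ (mem_cube_self v)
  have m1 : Measurable (W (v + e p.1.1)) := hW _ (mem_cube_one v _)
  have m2 : Measurable (W (v + e p.1.2)) := hW _ (mem_cube_one v _)
  have m3 : Measurable (W (v + e p.1.1 + e p.1.2)) := hW _ (mem_cube_two v hp)
  have m4 : Measurable (W (v + e p.1.2 + e p.1.1)) := hW _ (mem_cube_two v hp.symm)
  unfold X Z curl J
  refine (measurable_from_top (f := fun z : ℤ => Fin.ofNat 4 (z + 2).toNat)).comp ?_
  refine Int.measurable_floor.comp ?_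
  have := measurable_r
  fun_prop

/-- the base measure. -/
noncomputable def P : Measure ((Fin d → ℤ) → UnitAddCircle) :=
  Measure.infinitePi (fun _ => (volume : Measure UnitAddCircle))

instance : IsProbabilityMeasure (volume : Measure UnitAddCircle) := ⟨by
  simp [UnitAddCircle, AddCircle.measure_univ]⟩

instance : IsProbabilityMeasure (P (d := d)) := by unfold P; infer_instance

lemma measurable_X (θ : Fin d → Fin d → ℝ) (v : Fin d → ℤ) :
    Measurable (fun w : (Fin d → ℤ) → UnitAddCircle => X θ v w) := by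
  have h := measurable_X_of (Ω' := (Fin d → ℤ) → UnitAddCircle) θ v
    (fun (u : Fin d → ℤ) (w : (Fin d → ℤ) → UnitAddCircle) => w u)
    (fun u _ => measurable_pi_apply u)
  exact h

/-! shift invariance -/

/-- the magnetic translation -/
noncomputable def Tr (θ : Fin d → Fin d → ℝ) (s : Fin d → ℤ)
    (w : (Fin d → ℤ) → UnitAddCircle) : (Fin d → ℤ) → UnitAddCircle :=
  fun v => w (v + s) - ((∑ i, (v i : ℝ) * pot θ i s : ℝ) : UnitAddCircle)

lemma sum_e (f : Fin d → ℝ) (v : Fin d → ℤ) (i : Fin d) :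
    ∑ k, (((v + e i) k : ℤ) : ℝ) * f k = ∑ k, (v k : ℝ) * f k + f i := by
  have : ∀ k, (((v + e i) k : ℤ) : ℝ) * f k = (v k : ℝ) * f k + (if k = i then f k else 0) := by
    intro k
    rw [Pi.add_apply]
    unfold e
    by_cases hk : k = i
    · subst hk
      rw [Pi.single_eq_same, if_pos rfl]
      push_cast
      ring
    · rw [Pi.single_eq_of_ne hk, if_neg hk]
      push_cast
      ring
  simp_rw [this]
  rw [Finset.sum_add_distrib]
  simp

lemma J_Tr (θ : Fin d → Fin d → ℝ) (i : Fin d) (v s : Fin d → ℤ)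
    (w : (Fin d → ℤ) → UnitAddCircle) : J θ i v (Tr θ s w) = J θ i (v + s) w := by
  unfold J Tr
  congr 1
  have h3 : v + e i + s = v + s + e i := by abel
  rw [h3, sum_e (fun k => pot θ k s), pot_add, AddCircle.coe_add, AddCircle.coe_add]
  abel

lemma X_Tr (θ : Fin d → Fin d → ℝ) (v s : Fin d → ℤ) (w : (Fin d → ℤ) → UnitAddCircle) :
    X θ v (Tr θ s w) = X θ (v + s) w := by
  have h1 : ∀ i, v + e i + s = v + s + e i := fun i => by abel
  funext p
  unfold X Z curl
  rw [J_Tr, J_Tr, J_Tr, J_Tr, h1, h1]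

lemma measurable_Tr (θ : Fin d → Fin d → ℝ) (s : Fin d → ℤ) : Measurable (Tr θ s) := by
  unfold Tr
  fun_prop

lemma map_Tr (θ : Fin d → Fin d → ℝ) (s : Fin d → ℤ) : (P (d := d)).map (Tr θ s) = P := by
  classical
  unfold P
  refine Measure.eq_infinitePi _ ?_
  intro S t ht
  rw [Measure.map_apply (measurable_Tr θ s) (MeasurableSet.pi S.countable_toSet fun i _ => ht i)]
  have hpre : Tr θ s ⁻¹' (Set.pi S t) = Set.pi (S.image (· + s) : Finset (Fin d → ℤ))
      (fun u => (fun y : UnitAddCircle =>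
        y - ((∑ i, (((u - s) i : ℤ) : ℝ) * pot θ i s : ℝ) : UnitAddCircle)) ⁻¹' t (u - s)) := by
    ext w
    simp only [Set.mem_preimage, Set.mem_pi, Finset.mem_coe, Finset.mem_image, forall_exists_index,
      and_imp, forall_apply_eq_imp_iff₂, Tr]
    refine forall₂_congr fun a _ => ?_
    have : a + s - s = a := add_sub_cancel_right a s
    rw [this]
  rw [hpre, Measure.infinitePi_pi]
  · rw [Finset.prod_image (fun a _ b _ h => add_right_cancel h)]
    refine Finset.prod_congr rfl fun v _ => ?_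
    rw [add_sub_cancel_right]
    exact (measurePreserving_sub_right (volume : Measure UnitAddCircle)
      ((∑ i, ((v i : ℤ) : ℝ) * pot θ i s : ℝ) : UnitAddCircle)).measure_preimage
        (ht v).nullMeasurableSet
  · intro u _
    exact (measurable_sub_const _) (ht _)

lemma shiftInvariant_X (θ : Fin d → Fin d → ℝ) : ShiftInvariant (P (d := d)) (X θ) := by
  intro s
  have hX : Measurable (fun (w : (Fin d → ℤ) → UnitAddCircle) (v : Fin d → ℤ) =>
      X θ v w) := measurable_pi_iff.2 fun v => measurable_X θ v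
  have h : (fun (w : (Fin d → ℤ) → UnitAddCircle) (v : Fin d → ℤ) => X θ (v + s) w) =
      (fun w v => X θ v w) ∘ Tr θ s := by
    funext w v
    simp only [Function.comp]
    rw [X_Tr]
  rw [h, ← Measure.map_map hX (measurable_Tr θ s), map_Tr]

/-! finite dependence -/

def cubes (S : Set (Fin d → ℤ)) : Set (Fin d → ℤ) := ⋃ v ∈ S, cube v

lemma mem_cubes {S : Set (Fin d → ℤ)} {v : Fin d → ℤ} (hv : v ∈ S)
    {u : Fin d → ℤ} (hu : u ∈ cube v) : u ∈ cubes S := Set.mem_biUnion hv hu

lemma disjoint_cubes {S T : Set (Fin d → ℤ)}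
    (h : ∀ a ∈ S, ∀ b ∈ T, ((2 : ℕ) : ℝ) ≤ dist a b) : Disjoint (cubes S) (cubes T) := by
  rw [Set.disjoint_left]
  intro u hu hu'
  simp only [cubes, Set.mem_iUnion, exists_prop] at hu hu'
  obtain ⟨a, ha, hua⟩ := hu
  obtain ⟨b, hb, hub⟩ := hu'
  have h2 := h a ha b hb
  have h1 : dist a b ≤ 1 := by
    rw [dist_pi_le_iff zero_le_one]
    intro i
    have ra := hua i
    have rb := hub i
    rw [Int.dist_eq]
    have : |a i - b i| ≤ 1 := by rw [abs_le]; omega
    exact_mod_cast this
  norm_num at h2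
  linarith

lemma dependentRange_X (θ : Fin d → Fin d → ℝ) : DependentRange 2 (P (d := d)) (X θ) := by
  intro S T hST
  have hd := disjoint_cubes hST
  have hi : iIndepFun (fun (u : Fin d → ℤ) (w : (Fin d → ℤ) → UnitAddCircle) => w u)
      (P (d := d)) := iIndepFun_infinitePi (X := fun _ w ↦ w) (by fun_prop)
  have h1 := indep_iSup_of_disjoint (m := fun u : Fin d → ℤ =>
      MeasurableSpace.comap (fun (w : (Fin d → ℤ) → UnitAddCircle) => w u) inferInstance)
      (fun u => (measurable_pi_apply u).comap_le) hi hd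
  have key : ∀ S : Set (Fin d → ℤ),
      MeasurableSpace.comap (fun (w : (Fin d → ℤ) → UnitAddCircle) (v : S) => X θ (v : Fin d → ℤ) w)
        inferInstance ≤ ⨆ u ∈ cubes S, MeasurableSpace.comap
          (fun (w : (Fin d → ℤ) → UnitAddCircle) => w u) inferInstance := by
    intro S
    set m : MeasurableSpace ((Fin d → ℤ) → UnitAddCircle) :=
      ⨆ u ∈ cubes S, MeasurableSpace.comap
          (fun (w : (Fin d → ℤ) → UnitAddCircle) => w u) inferInstance with hm
    have hmeas : @Measurable _ _ m _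
        (fun (w : (Fin d → ℤ) → UnitAddCircle) (v : S) => X θ (v : Fin d → ℤ) w) := by
      refine @measurable_pi_lambda _ _ _ m _ _ fun v => ?_
      refine @measurable_X_of d _ m θ v (fun u w => w u) fun u hu => ?_
      have hle : MeasurableSpace.comap (fun (w : (Fin d → ℤ) → UnitAddCircle) => w u)
          inferInstance ≤ m :=
        le_iSup₂ (f := fun u (_ : u ∈ cubes S) => MeasurableSpace.comap
          (fun (w : (Fin d → ℤ) → UnitAddCircle) => w u) inferInstance) u (mem_cubes v.2 hu)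
      exact Measurable.mono (comap_measurable _) hle le_rfl
    exact hmeas.comap_le
  rw [IndepFun_iff_Indep]
  exact indep_of_indep_of_le_left (indep_of_indep_of_le_right h1 (key T)) (key S)

/-! the support is nonempty -/
lemma support_nonempty (θ : Fin d → Fin d → ℝ) : (support (P (d := d)) (X θ)).Nonempty := by
  classical
  have hae : ∀ᵐ w ∂(P (d := d)), (fun v => X θ v w) ∈ support P (X θ) := by
    have hB : ∀ (B : Finset (Fin d → ℤ)) , ∀ᵐ w ∂(P (d := d)),
        0 < P {w' : (Fin d → ℤ) → UnitAddCircle | ∀ v ∈ B, X θ v w' = X θ v w} := by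
      intro B
      rw [ae_iff]
      have hsub : {w : (Fin d → ℤ) → UnitAddCircle |
          ¬ 0 < P {w' : (Fin d → ℤ) → UnitAddCircle | ∀ v ∈ B, X θ v w' = X θ v w}} ⊆
          ⋃ p ∈ {p : B → (Pr d → Fin 4) | P {w' : (Fin d → ℤ) → UnitAddCircle |
            ∀ v : B, X θ (v : Fin d → ℤ) w' = p v} = 0},
            {w' : (Fin d → ℤ) → UnitAddCircle | ∀ v : B, X θ (v : Fin d → ℤ) w' = p v} := by
        intro w hw
        rw [Set.mem_ofPred_eq, not_lt, nonpos_iff_eq_zero] at hw
        refine Set.mem_biUnion (x := fun v : B => X θ (v : Fin d → ℤ) w) ?_ (fun v => rfl)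
        rw [Set.mem_ofPred_eq]
        refine le_antisymm ?_ bot_le
        rw [← hw]
        refine measure_mono fun w' h v hv => h ⟨v, hv⟩
      refine measure_mono_null hsub ?_
      rw [measure_biUnion_null_iff (Set.to_countable _)]
      intro p hp
      exact hp
    have := ae_all_iff.2 hB
    filter_upwards [this] with w hw B
    exact hw B
  obtain ⟨w, hw⟩ := hae.exists
  exact ⟨_, hw⟩

end Pool.Agent.KS6_60.FD
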