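import Pool.Agent.KS6_60.FD.Stokes

set_option autoImplicit false

open MeasureTheory ProbabilityTheory
open scoped Cardinal

namespace Pool.Agent.KS6_60.FD

variable {d : ℕ}

/-! ### rationally independent fluxes -/

/-- `1` and the `θ i j` are linearly independent over `ℚ` -/
def Indep1 (θ : Fin d → Fin d → ℝ) : Prop :=
  ∀ (n : ℤ) (m : Fin d → Fin d → ℤ), (n : ℝ) + ∑ i, ∑ j, θ i j * (m i j : ℝ) = 0 →
    ∀ i j, m i j = 0

lemma exists_flux (d : ℕ) : ∃ θ : Fin d → Fin d → ℝ,
    (∀ i j, 0 < θ i j) ∧ (∀ i j, θ i j < 1) ∧ Indep1 θ := by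
  classical
  have hr : ((Fintype.card (Option (Fin d × Fin d)) : ℕ) : Cardinal) ≤ Module.rank ℚ ℝ := by
    rw [Real.rank_rat_real]
    exact (Cardinal.nat_lt_continuum _).le
  obtain ⟨v, hv⟩ := Module.le_rank_iff.1 hr
  set b : Option (Fin d × Fin d) → ℝ := v ∘ (Fintype.equivFin (Option (Fin d × Fin d))) with hb
  have hbi : LinearIndependent ℚ b := hv.comp _ (Equiv.injective _)
  have h0 : b none ≠ 0 := hbi.ne_zero none
  have key : ∀ (n : ℤ) (m : Fin d → Fin d → ℤ),
      (n : ℝ) + ∑ i, ∑ j, (b (some (i, j)) / b none) * (m i j : ℝ) = 0 → ∀ i j, m i j = 0 := by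
    intro n m h i j
    rw [Fintype.linearIndependent_iff] at hbi
    have h1 := hbi (fun o => match o with
      | none => (n : ℚ)
      | some p => (m p.1 p.2 : ℚ)) ?_ (some (i, j))
    · simpa using h1
    · rw [Fintype.sum_option]
      simp only [Rat.smul_def]
      rw [Fintype.sum_prod_type]
      have h2 : ∀ i j, (b (some (i, j)) / b none) * (m i j : ℝ) * b none =
          ((m i j : ℚ) : ℝ) * b (some (i, j)) := by
        intro i j
        push_cast
        field_simp
      have h3 := congrArg (· * b none) h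
      simp only [add_mul, Finset.sum_mul, zero_mul] at h3
      simp_rw [h2] at h3
      push_cast at h3 ⊢
      exact h3
  refine ⟨fun i j => Int.fract (b (some (i, j)) / b none), fun i j => ?_, fun i j =>
    Int.fract_lt_one _, ?_⟩
  · refine lt_of_le_of_ne (Int.fract_nonneg _) fun h' => ?_
    have h : 0 = Int.fract (b (some (i, j)) / b none) := h'
    have h1 : b (some (i, j)) / b none = (⌊b (some (i, j)) / b none⌋ : ℝ) := by
      have := Int.self_sub_floor (b (some (i, j)) / b none)
      rw [← h] at this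
      linarith
    have h2 := key (-⌊b (some (i, j)) / b none⌋)
      (fun k l => if k = i ∧ l = j then 1 else 0) ?_ i j
    · simp at h2
    · rw [Finset.sum_eq_single i, Finset.sum_eq_single j]
      · rw [if_pos ⟨rfl, rfl⟩]
        push_cast
        rw [mul_one]
        linarith
      · intro l _ hl
        rw [if_neg fun h => hl h.2]
        simp
      · simp
      · intro k _ hk
        refine Finset.sum_eq_zero fun l _ => ?_
        rw [if_neg fun h => hk h.1]
        simp
      · simp
  · intro n m h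
    refine key (n - ∑ i, ∑ j, ⌊b (some (i, j)) / b none⌋ * m i j) m ?_
    push_cast
    rw [← h, sub_add, ← Finset.sum_sub_distrib, sub_eq_add_neg, ← Finset.sum_neg_distrib]
    congr 1
    refine Finset.sum_congr rfl fun i _ => ?_
    rw [← Finset.sum_sub_distrib, ← Finset.sum_neg_distrib]
    refine Finset.sum_congr rfl fun j _ => ?_
    have := Int.self_sub_floor (b (some (i, j)) / b none)
    show _ = Int.fract (b (some (i, j)) / b none) * (m i j : ℝ)
    rw [← this]
    ring

lemma Indep1.irrational {θ : Fin d → Fin d → ℝ} (hθ : Indep1 θ) (i j : Fin d) :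
    Irrational (θ i j) := by
  rintro ⟨q, hq⟩
  have h := hθ (-q.num) (fun k l => if k = i ∧ l = j then q.den else 0) ?_ i j
  · simp at h
  · rw [Finset.sum_eq_single i, Finset.sum_eq_single j]
    · rw [if_pos ⟨rfl, rfl⟩, ← hq]
      have h1 : (q.den : ℝ) ≠ 0 := by exact_mod_cast q.den_nz
      have h2 : (q : ℝ) = (q.num : ℝ) / (q.den : ℝ) := by
        exact_mod_cast (Rat.num_div_den q).symm
      rw [h2]
      push_cast
      field_simp
      ring
    · intro l _ hl
      rw [if_neg fun h => hl h.2]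
      simp
    · simp
    · intro k _ hk
      refine Finset.sum_eq_zero fun l _ => ?_
      rw [if_neg fun h => hk h.1]
      simp
    · simp

lemma form_eq (θ : Fin d → Fin d → ℝ) (p q : Fin d → ℤ) :
    form θ p q = ∑ i, ∑ j, θ i j *
      (((if i < j then p i * q j - p j * q i else 0 : ℤ)) : ℝ) := by
  unfold form bet
  have h1 : ∀ i j, ((if i < j then θ i j else 0) - (if j < i then θ j i else 0)) * (p i : ℝ) *
      (q j : ℝ) = (if i < j then θ i j else 0) * (p i : ℝ) * (q j : ℝ) -
        (if j < i then θ j i else 0) * (p i : ℝ) * (q j : ℝ) := fun i j => by ring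
  simp_rw [h1, Finset.sum_sub_distrib]
  have h2 : ∑ i, ∑ j, (if j < i then θ j i else 0) * (p i : ℝ) * (q j : ℝ) =
      ∑ i, ∑ j, (if i < j then θ i j else 0) * (p j : ℝ) * (q i : ℝ) := by
    rw [Finset.sum_comm]
  rw [h2]
  simp_rw [← Finset.sum_sub_distrib]
  refine Finset.sum_congr rfl fun i _ => Finset.sum_congr rfl fun j _ => ?_
  split_ifs
  · push_cast; ring
  · simp

lemma parallel_of_flux {θ : Fin d → Fin d → ℝ} (hθ : Indep1 θ) {p q : Fin d → ℤ} {n : ℤ}
    (h : (n : ℝ) + form θ p q = 0) (i j : Fin d) : p i * q j = p j * q i := by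
  rw [form_eq] at h
  have h1 := hθ n _ h
  rcases lt_trichotomy i j with hij | hij | hij
  · have := h1 i j
    rw [if_pos hij] at this
    linarith
  · subst hij; rfl
  · have := h1 j i
    rw [if_pos hij] at this
    linarith

/-! ### a real cochain for every configuration of the support -/

lemma abs_r (y : UnitAddCircle) : |r y| ≤ 1/2 := by
  have := r_mem y
  rw [abs_le]
  constructor <;> linarith [this.1, this.2]

lemma exists_cochain {θ : Fin d → Fin d → ℝ} (h0 : ∀ i j, 0 < θ i j) (h1 : ∀ i j, θ i j < 1)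
    {x : (Fin d → ℤ) → (Pr d → Fin 4)} (hx : x ∈ support P (X θ)) :
    ∃ g : Fin d → (Fin d → ℤ) → ℝ, (∀ i v, |g i v| ≤ 1 / 2) ∧
      ∀ (p : Pr d) (v : Fin d → ℤ), C g p.1.1 p.1.2 v = ((x v p : ℕ) : ℝ) - 2 + θ p.1.1 p.1.2 := by
  classical
  let K : Set (Fin d → (Fin d → ℤ) → ℝ) :=
    Set.pi Set.univ fun _ => Set.pi Set.univ fun _ => Set.Icc (-1/2) (1/2)
  have hK : IsCompact K :=
    isCompact_univ_pi fun _ => isCompact_univ_pi fun _ => isCompact_Icc
  have hKc : IsClosed K := hK.isClosed
  let F : Finset (Fin d → ℤ) → Set (Fin d → (Fin d → ℤ) → ℝ) := fun B =>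
    K ∩ {g | ∀ v ∈ B, ∀ p : Pr d, C g p.1.1 p.1.2 v = ((x v p : ℕ) : ℝ) - 2 + θ p.1.1 p.1.2}
  have hcl : ∀ B, IsClosed (F B) := by
    intro B
    refine hKc.inter ?_
    simp only [Set.ofPred_forall]
    refine isClosed_iInter fun v => isClosed_iInter fun _ => isClosed_iInter fun p => ?_
    refine isClosed_eq ?_ continuous_const
    unfold C
    fun_prop
  have hne : ∀ B, (F B).Nonempty := by
    intro B
    obtain ⟨w, hw⟩ := nonempty_of_measure_ne_zero (hx B).ne'
    refine ⟨fun i v => J θ i v w, ?_, ?_⟩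
    · intro i _ v _
      have := r_mem (w (v + e i) - w v - ((pot θ i v : ℝ) : UnitAddCircle))
      exact ⟨this.1, this.2.le⟩
    · intro v hv p
      have h2 := Z_eq θ p.2 v w
      have h3 := X_val θ h0 h1 v w p
      rw [hw v hv] at h3
      have h4 : (((x v p : ℕ) : ℤ) : ℝ) = ((Z θ p.1.1 p.1.2 v w + 2 : ℤ) : ℝ) := by rw [h3]
      push_cast at h4
      rw [h4, h2]
      show curl θ p.1.1 p.1.2 v w = _
      ring
  have hdir : Directed (· ⊇ ·) F := by
    intro B B'
    refine ⟨B ∪ B', ?_, ?_⟩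
    · exact fun g hg => ⟨hg.1, fun v hv p => hg.2 v (Finset.mem_union_left _ hv) p⟩
    · exact fun g hg => ⟨hg.1, fun v hv p => hg.2 v (Finset.mem_union_right _ hv) p⟩
  obtain ⟨g, hg⟩ := IsCompact.nonempty_iInter_of_directed_nonempty_isCompact_isClosed F hdir hne
    (fun B => hK.of_isClosed_subset (hcl B) Set.inter_subset_left) hcl
  rw [Set.mem_iInter] at hg
  refine ⟨g, fun i v => ?_, fun p v => (hg {v}).2 v (Finset.mem_singleton_self v) p⟩
  have := (hg ∅).1 i (Set.mem_univ _) v (Set.mem_univ _)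
  rw [abs_le]
  constructor <;> linarith [this.1, this.2]

/-- two periods of a configuration of the support are parallel -/
theorem parallel {θ : Fin d → Fin d → ℝ} (h0 : ∀ i j, 0 < θ i j) (h1 : ∀ i j, θ i j < 1)
    (hθ : Indep1 θ) {x : (Fin d → ℤ) → (Pr d → Fin 4)} (hx : x ∈ support P (X θ))
    {p q : Fin d → ℤ} (hp : p ∈ stab x) (hq : q ∈ stab x) (i j : Fin d) :
    p i * q j = p j * q i := by
  obtain ⟨g, hg, hgC⟩ := exists_cochain h0 h1 hx
  obtain ⟨n, hn⟩ := flux_zero (p := p) (q := q) hg (θ := θ) (by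
    intro i j hij
    have hC : ∀ v, C g i j v = ((x v ⟨(i, j), hij⟩ : ℕ) : ℝ) - 2 + θ i j := hgC ⟨(i, j), hij⟩
    refine ⟨fun v => ?_, fun v => ?_, fun v => ⟨((x v ⟨(i, j), hij⟩ : ℕ) : ℤ) - 2, ?_⟩⟩
    · rw [hC, hC, hp v]
    · rw [hC, hC, hq v]
    · rw [hC]; push_cast; ring)
  exact parallel_of_flux hθ hn i j

/-- the discrepancy of the letters on squares -/
theorem squares {θ : Fin d → Fin d → ℝ} (h0 : ∀ i j, 0 < θ i j) (h1 : ∀ i j, θ i j < 1)
    {x : (Fin d → ℤ) → (Pr d → Fin 4)} (hx : x ∈ support P (X θ)) (p : Pr d)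
    (v : Fin d → ℤ) (N : ℕ) :
    |∑ s ∈ Finset.range N, ∑ t ∈ Finset.range N,
      (((x (v + s • e p.1.1 + t • e p.1.2) p : ℕ) : ℝ) - (2 - θ p.1.1 p.1.2))| ≤ 2 * N := by
  obtain ⟨g, hg, hgC⟩ := exists_cochain h0 h1 hx
  set i := p.1.1
  set j := p.1.2
  have hcell : ∀ s t : ℕ, (((x (v + s • e i + t • e j) p : ℕ) : ℝ) - (2 - θ i j)) =
      (g i (v + s • e i + t • e j) - g i (v + s • e i + (t + 1) • e j)) +
      (g j (v + (s + 1) • e i + t • e j) - g j (v + s • e i + t • e j)) := by
    intro s t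
    have h := hgC p (v + s • e i + t • e j)
    unfold C at h
    rw [show v + s • e i + t • e j + e p.1.1 = v + (s + 1) • e i + t • e j by
        rw [add_smul, one_smul]; abel,
      show v + s • e i + t • e j + e p.1.2 = v + s • e i + (t + 1) • e j by
        rw [add_smul, one_smul]; abel] at h
    linarith
  rw [Finset.sum_congr rfl fun s _ => Finset.sum_congr rfl fun t _ => hcell s t]
  simp_rw [Finset.sum_add_distrib]
  have h3 : |∑ s ∈ Finset.range N, ∑ t ∈ Finset.range N,
      (g i (v + s • e i + t • e j) - g i (v + s • e i + (t + 1) • e j))| ≤ N := by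
    refine (Finset.abs_sum_le_sum_abs _ _).trans ?_
    refine (Finset.sum_le_sum (g := fun _ => (1 : ℝ)) fun s _ => ?_).trans (by simp)
    rw [Finset.sum_range_sub' (fun t => g i (v + s • e i + t • e j))]
    refine (abs_sub _ _).trans ?_
    have a := hg i (v + s • e i + 0 • e j)
    have b := hg i (v + s • e i + N • e j)
    linarith
  have h4 : |∑ s ∈ Finset.range N, ∑ t ∈ Finset.range N,
      (g j (v + (s + 1) • e i + t • e j) - g j (v + s • e i + t • e j))| ≤ N := by
    rw [Finset.sum_comm]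
    refine (Finset.abs_sum_le_sum_abs _ _).trans ?_
    refine (Finset.sum_le_sum (g := fun _ => (1 : ℝ)) fun t _ => ?_).trans (by simp)
    rw [Finset.sum_range_sub (fun s => g j (v + s • e i + t • e j))]
    refine (abs_sub _ _).trans ?_
    have a := hg j (v + N • e i + t • e j)
    have b := hg j (v + 0 • e i + t • e j)
    linarith
  refine (abs_add_le _ _).trans ?_
  linarith

/-- a group of integer vectors any two of which are parallel is cyclic -/
theorem cyclic_of_parallel (H : AddSubgroup (Fin d → ℤ))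
    (h : ∀ p ∈ H, ∀ q ∈ H, ∀ i j, p i * q j = p j * q i) : IsAddCyclic H := by
  classical
  by_cases h0 : ∃ p ∈ H, p ≠ 0
  · obtain ⟨p, hp, hp0⟩ := h0
    obtain ⟨i, hi⟩ := Function.ne_iff.1 hp0
    let f : H →+ ℤ := (Pi.evalAddMonoidHom (fun _ : Fin d => ℤ) i).comp H.subtype
    refine isAddCyclic_of_injective f ?_
    rw [injective_iff_map_eq_zero]
    rintro ⟨q, hq⟩ hfq
    have hfq' : q i = 0 := hfq
    refine Subtype.ext ?_
    funext j
    have h1 := h p hp q hq i j
    rw [hfq', mul_zero] at h1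
    rcases mul_eq_zero.1 h1 with h2 | h2
    · exact absurd h2 hi
    · exact h2
  · push Not at h0
    have : Subsingleton H := ⟨fun a b => Subtype.ext (by rw [h0 a a.2, h0 b b.2])⟩
    infer_instance

end Pool.Agent.KS6_60.FD
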