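import Pool.Agent.KS6_60.FD.Field

set_option autoImplicit false

namespace Pool.Agent.KS6_60.FD

variable {d : ℕ}

/-! ### real 1-cochains on `ℤ^d` -/

/-- the curl of a real cochain -/
def C (g : Fin d → (Fin d → ℤ) → ℝ) (i j : Fin d) (v : Fin d → ℤ) : ℝ :=
  g i v + g j (v + e i) - g i (v + e j) - g j v

/-- a step: a direction and a sign -/
abbrev Step (d : ℕ) := Fin d × Bool

def vec (a : Step d) : Fin d → ℤ := if a.2 then e a.1 else -e a.1

def sg (a : Step d) : ℝ := if a.2 then 1 else -1

/-- the value of the cochain on a step starting at `v` -/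
def JS (g : Fin d → (Fin d → ℤ) → ℝ) (a : Step d) (v : Fin d → ℤ) : ℝ :=
  if a.2 then g a.1 v else -g a.1 (v - e a.1)

/-- the displacement of a path -/
def tot : List (Step d) → (Fin d → ℤ)
  | [] => 0
  | a :: L => vec a + tot L

/-- the integral along a path -/
def int (g : Fin d → (Fin d → ℤ) → ℝ) : List (Step d) → (Fin d → ℤ) → ℝ
  | [], _ => 0
  | a :: L, v => JS g a v + int g L (v + vec a)

/-- the integral around the parallelogram spanned by two paths -/
def loop (g : Fin d → (Fin d → ℤ) → ℝ) (L M : List (Step d)) (v : Fin d → ℤ) : ℝ :=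
  int g L v + int g M (v + tot L) - int g L (v + tot M) - int g M v

/-- the antisymmetric form -/
def bet (θ : Fin d → Fin d → ℝ) (i j : Fin d) : ℝ :=
  (if i < j then θ i j else 0) - (if j < i then θ j i else 0)

def form (θ : Fin d → Fin d → ℝ) (p q : Fin d → ℤ) : ℝ :=
  ∑ i, ∑ j, bet θ i j * (p i : ℝ) * (q j : ℝ)

/-- functions with the two periods `p` and `q` and with values in `α + ℤ` -/
def Good (p q : Fin d → ℤ) (F : (Fin d → ℤ) → ℝ) (α : ℝ) : Prop :=
  (∀ v, F (v + p) = F v) ∧ (∀ v, F (v + q) = F v) ∧ ∀ v, ∃ n : ℤ, F v = n + α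

lemma Good.add {p q : Fin d → ℤ} {F G : (Fin d → ℤ) → ℝ} {α β : ℝ} (hF : Good p q F α)
    (hG : Good p q G β) : Good p q (fun v => F v + G v) (α + β) := by
  refine ⟨fun v => by simp only [hF.1, hG.1], fun v => by simp only [hF.2.1, hG.2.1], fun v => ?_⟩
  obtain ⟨n, hn⟩ := hF.2.2 v
  obtain ⟨m, hm⟩ := hG.2.2 v
  refine ⟨n + m, ?_⟩
  simp only [hn, hm]
  push_cast
  ring

lemma Good.neg {p q : Fin d → ℤ} {F : (Fin d → ℤ) → ℝ} {α : ℝ} (hF : Good p q F α) :
    Good p q (fun v => -F v) (-α) := by
  refine ⟨fun v => by simp only [hF.1], fun v => by simp only [hF.2.1], fun v => ?_⟩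
  obtain ⟨n, hn⟩ := hF.2.2 v
  refine ⟨-n, ?_⟩
  simp only [hn]
  push_cast
  ring

lemma Good.shift {p q : Fin d → ℤ} {F : (Fin d → ℤ) → ℝ} {α : ℝ} (hF : Good p q F α)
    (s : Fin d → ℤ) : Good p q (fun v => F (v + s)) α := by
  refine ⟨fun v => ?_, fun v => ?_, fun v => hF.2.2 _⟩
  · simp only
    rw [show v + p + s = v + s + p by abel, hF.1]
  · simp only
    rw [show v + q + s = v + s + q by abel, hF.2.1]

lemma Good.zero {p q : Fin d → ℤ} : Good p q (fun _ => 0) 0 :=
  ⟨fun _ => rfl, fun _ => rfl, fun _ => ⟨0, by simp⟩⟩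

lemma Good.congr {p q : Fin d → ℤ} {F G : (Fin d → ℤ) → ℝ} {α β : ℝ} (hF : Good p q F α)
    (h : ∀ v, G v = F v) (hα : β = α) : Good p q G β := by
  have : G = F := funext h
  rw [this, hα]
  exact hF

lemma form_zero_left (θ : Fin d → Fin d → ℝ) (q : Fin d → ℤ) : form θ 0 q = 0 := by
  simp [form]

lemma form_zero_right (θ : Fin d → Fin d → ℝ) (p : Fin d → ℤ) : form θ p 0 = 0 := by
  simp [form]

lemma form_add_left (θ : Fin d → Fin d → ℝ) (p p' q : Fin d → ℤ) :
    form θ (p + p') q = form θ p q + form θ p' q := by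
  unfold form
  simp_rw [← Finset.sum_add_distrib]
  refine Finset.sum_congr rfl fun i _ => Finset.sum_congr rfl fun j _ => ?_
  rw [Pi.add_apply]
  push_cast
  ring

lemma form_add_right (θ : Fin d → Fin d → ℝ) (p q q' : Fin d → ℤ) :
    form θ p (q + q') = form θ p q + form θ p q' := by
  unfold form
  simp_rw [← Finset.sum_add_distrib]
  refine Finset.sum_congr rfl fun i _ => Finset.sum_congr rfl fun j _ => ?_
  rw [Pi.add_apply]
  push_cast
  ring

lemma form_vec (θ : Fin d → Fin d → ℝ) (a b : Step d) :
    form θ (vec a) (vec b) = sg a * sg b * bet θ a.1 b.1 := by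
  have hv : ∀ (a : Step d) (i : Fin d), ((vec a i : ℤ) : ℝ) = if i = a.1 then sg a else 0 := by
    intro a i
    unfold vec sg e
    rcases a with ⟨a, s⟩
    cases s
    · by_cases h : i = a
      · subst h; simp
      · simp [h]
    · by_cases h : i = a
      · subst h; simp
      · simp [h]
  unfold form
  simp_rw [hv]
  simp
  ring

/-- the elementary plaquettes -/
lemma good_plaq {g : Fin d → (Fin d → ℤ) → ℝ} {θ : Fin d → Fin d → ℝ} {p q : Fin d → ℤ}
    (hC : ∀ i j, i < j → Good p q (C g i j) (θ i j)) (i j : Fin d) :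
    Good p q (C g i j) (bet θ i j) := by
  rcases lt_trichotomy i j with h | h | h
  · refine (hC i j h).congr (fun _ => rfl) ?_
    unfold bet
    rw [if_pos h, if_neg (not_lt.2 h.le), sub_zero]
  · subst h
    refine Good.zero.congr (fun v => ?_) ?_
    · unfold C; ring
    · unfold bet; simp
  · refine ((hC j i h).neg).congr (fun v => ?_) ?_
    · unfold C; ring
    · unfold bet
      rw [if_pos h, if_neg (not_lt.2 h.le), zero_sub]

/-- two steps -/
lemma good_two {g : Fin d → (Fin d → ℤ) → ℝ} {θ : Fin d → Fin d → ℝ} {p q : Fin d → ℤ}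
    (hC : ∀ i j, i < j → Good p q (C g i j) (θ i j)) (a b : Step d) :
    Good p q (fun v => JS g a v + JS g b (v + vec a) - JS g a (v + vec b) - JS g b v)
      (form θ (vec a) (vec b)) := by
  rw [form_vec]
  have h0 := good_plaq hC a.1 b.1
  rcases a with ⟨i, s⟩
  rcases b with ⟨j, t⟩
  simp only at h0
  cases s <;> cases t
  · refine (h0.shift (-e i - e j)).congr (fun v => ?_) ?_
    · simp only [JS, vec, C, Bool.false_eq_true, if_false]
      rw [show v + (-e i - e j) + e i = v - e j by abel,
        show v + (-e i - e j) + e j = v - e i by abel,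
        show v + -e i - e j = v + (-e i - e j) by abel,
        show v + -e j - e i = v + (-e i - e j) by abel]
      ring
    · simp [sg]
  · refine ((h0.shift (-e i)).neg).congr (fun v => ?_) ?_
    · simp only [JS, vec, C, Bool.false_eq_true, if_false, if_true]
      rw [show v + -e i + e i = v by abel, show v - e i = v + -e i by abel,
        show v + e j - e i = v + -e i + e j by abel]
      ring
    · simp [sg]
  · refine ((h0.shift (-e j)).neg).congr (fun v => ?_) ?_
    · simp only [JS, vec, C, Bool.false_eq_true, if_false, if_true]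
      rw [show v + -e j + e j = v by abel, show v + e i - e j = v + -e j + e i by abel,
        show v - e j = v + -e j by abel]
      ring
    · simp [sg]
  · refine h0.congr (fun v => ?_) ?_
    · simp only [JS, vec, C, if_true]
    · simp [sg]

lemma good_one {g : Fin d → (Fin d → ℤ) → ℝ} {θ : Fin d → Fin d → ℝ} {p q : Fin d → ℤ}
    (hC : ∀ i j, i < j → Good p q (C g i j) (θ i j)) (a : Step d) (M : List (Step d)) :
    Good p q (fun v => JS g a v + int g M (v + vec a) - JS g a (v + tot M) - int g M v)
      (form θ (vec a) (tot M)) := by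
  induction M with
  | nil =>
    refine Good.zero.congr (fun v => ?_) ?_
    · simp [int, tot]
    · simp [tot, form_zero_right]
  | cons b M ih =>
    refine ((good_two hC a b).add (ih.shift (vec b))).congr (fun v => ?_) ?_
    · simp only [int, tot]
      rw [show v + vec a + vec b = v + vec b + vec a by abel,
        show v + (vec b + tot M) = v + vec b + tot M by abel]
      ring
    · simp only [tot]
      rw [form_add_right]

lemma good_loop {g : Fin d → (Fin d → ℤ) → ℝ} {θ : Fin d → Fin d → ℝ} {p q : Fin d → ℤ}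
    (hC : ∀ i j, i < j → Good p q (C g i j) (θ i j)) (L M : List (Step d)) :
    Good p q (loop g L M) (form θ (tot L) (tot M)) := by
  induction L with
  | nil =>
    refine Good.zero.congr (fun v => ?_) ?_
    · simp [loop, int, tot]
    · simp [tot, form_zero_left]
  | cons a L ih =>
    refine ((good_one hC a M).add (ih.shift (vec a))).congr (fun v => ?_) ?_
    · simp only [loop, int, tot]
      rw [show v + (vec a + tot L) = v + vec a + tot L by abel,
        show v + tot M + vec a = v + vec a + tot M by abel]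
      ring
    · simp only [tot]
      rw [form_add_left]

lemma abs_int_le {g : Fin d → (Fin d → ℤ) → ℝ} (hg : ∀ i v, |g i v| ≤ 1 / 2)
    (L : List (Step d)) (v : Fin d → ℤ) : |int g L v| ≤ L.length := by
  induction L generalizing v with
  | nil => simp [int]
  | cons a L ih =>
    simp only [int, List.length_cons]
    push_cast
    have h1 : |JS g a v| ≤ 1 / 2 := by
      unfold JS
      split_ifs
      · exact hg _ _
      · rw [abs_neg]; exact hg _ _
    have h2 := abs_add_le (JS g a v) (int g L (v + vec a))
    have h3 := ih (v + vec a)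
    linarith

/-! every vector is the displacement of a path -/

lemma tot_append (L M : List (Step d)) : tot (L ++ M) = tot L + tot M := by
  induction L with
  | nil => simp [tot]
  | cons a L ih => simp only [List.cons_append, tot, ih]; abel

lemma exists_path (p : Fin d → ℤ) : ∃ L : List (Step d), tot L = p := by
  have h1 : ∀ (i : Fin d) (n : ℤ), ∃ L : List (Step d), tot L = n • e i := by
    intro i n
    induction n using Int.induction_on with
    | zero => exact ⟨[], by simp [tot]⟩
    | succ n ih =>
      obtain ⟨L, hL⟩ := ih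
      refine ⟨(i, true) :: L, ?_⟩
      simp only [tot, vec, if_true, hL, add_smul, one_smul]
      abel
    | pred n ih =>
      obtain ⟨L, hL⟩ := ih
      refine ⟨(i, false) :: L, ?_⟩
      simp only [tot, vec, Bool.false_eq_true, if_false, hL, sub_smul, one_smul]
      abel
  have h2 : ∀ s : Finset (Fin d), ∃ L : List (Step d), tot L = ∑ i ∈ s, p i • e i := by
    intro s
    classical
    induction s using Finset.induction_on with
    | empty => exact ⟨[], by simp [tot]⟩
    | insert i s hi ih =>
      obtain ⟨L, hL⟩ := ih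
      obtain ⟨M, hM⟩ := h1 i (p i)
      exact ⟨M ++ L, by rw [tot_append, hL, hM, Finset.sum_insert hi]⟩
  obtain ⟨L, hL⟩ := h2 Finset.univ
  refine ⟨L, ?_⟩
  rw [hL]
  funext k
  rw [Finset.sum_apply, Finset.sum_eq_single k]
  · simp [e]
  · intro j _ hj
    simp [e, Pi.single_eq_of_ne hj.symm]
  · simp

/-- **Flux through a doubly periodic surface.** -/
theorem flux_zero {g : Fin d → (Fin d → ℤ) → ℝ} {θ : Fin d → Fin d → ℝ} {p q : Fin d → ℤ}
    (hg : ∀ i v, |g i v| ≤ 1 / 2) (hC : ∀ i j, i < j → Good p q (C g i j) (θ i j)) :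
    ∃ n : ℤ, (n : ℝ) + form θ p q = 0 := by
  obtain ⟨L, hL⟩ := exists_path p
  obtain ⟨M, hM⟩ := exists_path q
  have hgood := good_loop hC L M
  obtain ⟨n, hn⟩ := hgood.2.2 0
  rw [hL, hM] at hn
  refine ⟨n, ?_⟩
  rw [← hn]
  set κ := loop g L M 0 with hκ
  have hp : ∀ (s : ℕ) (v : Fin d → ℤ), loop g L M (v + s • p) = loop g L M v := by
    intro s
    induction s with
    | zero => intro v; simp
    | succ s ih =>
      intro v
      rw [add_smul, one_smul, ← add_assoc, hgood.1, ih]
  have hq : ∀ (s : ℕ) (v : Fin d → ℤ), loop g L M (v + s • q) = loop g L M v := by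
    intro s
    induction s with
    | zero => intro v; simp
    | succ s ih =>
      intro v
      rw [add_smul, one_smul, ← add_assoc, hgood.2.1, ih]
  have hall : ∀ s t : ℕ, loop g L M (s • p + t • q) = κ := by
    intro s t
    rw [hq, ← zero_add (s • p), hp]
  set H : ℕ → ℕ → ℝ := fun s t => int g L (s • p + t • q) with hH
  set V : ℕ → ℕ → ℝ := fun s t => int g M (s • p + t • q) with hV
  have hcell : ∀ s t : ℕ, κ = (H s t - H s (t + 1)) + (V (s + 1) t - V s t) := by
    intro s t
    rw [← hall s t]
    simp only [loop, hH, hV, hL, hM]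
    rw [show s • p + t • q + p = (s + 1) • p + t • q by rw [add_smul, one_smul]; abel,
      show s • p + t • q + q = s • p + (t + 1) • q by rw [add_smul, one_smul]; abel]
    ring
  have hbound : ∀ N : ℕ, |(N : ℝ) * ((N : ℝ) * κ)| ≤ 2 * (L.length + M.length) * N := by
    intro N
    have h1 : (N : ℝ) * ((N : ℝ) * κ) = ∑ s ∈ Finset.range N, ∑ t ∈ Finset.range N, κ := by
      simp
    have h2 : ∑ s ∈ Finset.range N, ∑ t ∈ Finset.range N, κ =
        (∑ s ∈ Finset.range N, (H s 0 - H s N)) + ∑ t ∈ Finset.range N, (V N t - V 0 t) := by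
      rw [Finset.sum_congr rfl fun s _ => Finset.sum_congr rfl fun t _ => hcell s t]
      simp_rw [Finset.sum_add_distrib]
      congr 1
      · refine Finset.sum_congr rfl fun s _ => ?_
        rw [Finset.sum_range_sub' (fun t => H s t)]
      · rw [Finset.sum_comm]
        refine Finset.sum_congr rfl fun t _ => ?_
        rw [Finset.sum_range_sub (fun s => V s t)]
    rw [h1, h2]
    have h3 : |∑ s ∈ Finset.range N, (H s 0 - H s N)| ≤ 2 * L.length * N := by
      refine (Finset.abs_sum_le_sum_abs _ _).trans ?_
      refine (Finset.sum_le_sum (g := fun _ => (2 * L.length : ℝ)) fun i _ => ?_).trans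
        (by simp [mul_comm])
      refine (abs_sub _ _).trans ?_
      have a := abs_int_le hg L (i • p + 0 • q)
      have b := abs_int_le hg L (i • p + N • q)
      simp only [hH]
      linarith
    have h4 : |∑ t ∈ Finset.range N, (V N t - V 0 t)| ≤ 2 * M.length * N := by
      refine (Finset.abs_sum_le_sum_abs _ _).trans ?_
      refine (Finset.sum_le_sum (g := fun _ => (2 * M.length : ℝ)) fun i _ => ?_).trans
        (by simp [mul_comm])
      refine (abs_sub _ _).trans ?_
      have a := abs_int_le hg M (N • p + i • q)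
      have b := abs_int_le hg M (0 • p + i • q)
      simp only [hV]
      linarith
    refine (abs_add_le _ _).trans ?_
    linarith
  by_contra hne
  have hpos : 0 < |κ| := abs_pos.2 hne
  obtain ⟨m, hmm⟩ := exists_nat_gt (2 * ((L.length : ℝ) + M.length) / |κ|)
  have hm0 : (0 : ℝ) < m := lt_of_le_of_lt (by positivity) hmm
  have h := hbound m
  rw [abs_mul, abs_mul, abs_of_pos hm0] at h
  rw [div_lt_iff₀ hpos] at hmm
  nlinarith

end Pool.Agent.KS6_60.FD
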